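import Pool.Agent.Emd.Full

/-!
The order of the `L_1` distortion of the space `Y(Δ, d, s)` of uniform measures on `s`-point
subsets of the grid `{1, …, Δ}^d`, for the `ℓ_1` and the `ℓ_2` metric, for all `Δ`, `d` and `s`.
-/

namespace Pool.Agent.Results.MP_12e089_an.FullOrder

open Pool.Agent.MP_12e089_an

/-- Answer to Q1. Write `m = min(s, Δ^d - s)`. With universal constants, for all `Δ ≥ 2`, `d ≥ 2`,
`1 ≤ s < Δ^d`: `c_1(Y(Δ, d, s))` has order `1 + log m` for the `ℓ_1` metric and order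
`1 + min(log m, √(log m · log Δ))` for the `ℓ_2` metric. For `d = 1` and for `s = Δ^d` it is one. -/
theorem result :
    (∃ c C : ℝ, 0 < c ∧ 0 < C ∧ ∀ Δ d s m : ℕ,
      2 ≤ Δ → 2 ≤ d → 1 ≤ s → s < Δ ^ d → m = min s (Δ ^ d - s) →
      (c * (1 + Real.log m) ≤ cY1 Δ d s ∧ cY1 Δ d s ≤ C * (1 + Real.log m)) ∧
      (c * (1 + min (Real.log m) (Real.sqrt (Real.log m * Real.log Δ))) ≤ cY2 Δ d s ∧
        cY2 Δ d s ≤ C * (1 + min (Real.log m) (Real.sqrt (Real.log m * Real.log Δ))))) ∧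
    (∀ Δ s : ℕ, 2 ≤ Δ → 1 ≤ s → s ≤ Δ → cY1 Δ 1 s = 1 ∧ cY2 Δ 1 s = 1) ∧
    (∀ Δ d : ℕ, 2 ≤ Δ → 1 ≤ d → cY1 Δ d (Δ ^ d) = 1 ∧ cY2 Δ d (Δ ^ d) = 1) :=
  ⟨Emd.full_order, fun _ _ _ hs _ => GrP.line_one hs, fun Δ d hΔ hd => Order.order.2.1 Δ d hΔ hd⟩

end Pool.Agent.Results.MP_12e089_an.FullOrder
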