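import Pool.Agent.MP_12e089_an.Order

/-!
The `L_1` distortion of the space `Y(Δ, d, s)` of uniform measures on `s`-point subsets of the grid
`{1, …, Δ}^d` is bounded by an explicit function of `s` alone, for the `ℓ_1` and the `ℓ_2` metric.
-/

namespace Pool.Agent.Results.MP_12e089_an.LogBound

open Pool.Agent.MP_12e089_an

/-- Answer to Q2: `f(s) = 6 + 180 log s` bounds `c_1(Y(Δ, d, s))` for both metrics. -/
theorem result : ∀ Δ d s : ℕ, 2 ≤ Δ → 1 ≤ d → 1 ≤ s → s ≤ Δ ^ d →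
    cY1 Δ d s ≤ 6 + 180 * Real.log s ∧ cY2 Δ d s ≤ 6 + 180 * Real.log s :=
  Order.order.2.2.1

end Pool.Agent.Results.MP_12e089_an.LogBound
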